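import Mathlib
import Pool.Agent.H32.Sub

open Set Filter Topology

namespace Pool.Agent.Results.MP_6bd6f6_an.NotLYS

section defs
variable {X : Type} [MetricSpace X]

/-- topological transitivity -/
def Trans (T : X → X) : Prop :=
  ∀ U V : Set X, IsOpen U → U.Nonempty → IsOpen V → V.Nonempty → ∃ n, (U ∩ T^[n] ⁻¹' V).Nonempty

/-- minimal sets -/
def IsMin (T : X → X) (M : Set X) : Prop :=
  M.Nonempty ∧ IsClosed M ∧ MapsTo T M M ∧
    ∀ N ⊆ M, N.Nonempty → IsClosed N → MapsTo T N N → N = M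

/-- Li-Yorke sensitivity -/
def LYS (T : X → X) : Prop :=
  ∃ δ : ℝ, 0 < δ ∧ ∀ x, ∀ U ∈ 𝓝 x, ∃ y ∈ U,
    liminf (fun n => dist (T^[n] x) (T^[n] y)) atTop = 0 ∧
      δ < limsup (fun n => dist (T^[n] x) (T^[n] y)) atTop

end defs

open Pool.Agent.H32.Sub

def X : Set (ℤ_[2] × (ℕ → Bool)) :=
  {q | ∀ n j : ℕ, 1 ≤ j → q.2 n = true → q.2 (n + j) = true → (1 / 2 : ℝ) ^ j ≤ ‖q.1 + n‖}

noncomputable def T (q : X) : X := ⟨(q.1.1 + 1, fun k => q.1.2 (k + 1)), fun n j h a b => by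
  have := q.2 (n + 1) j h a (by rw [add_right_comm]; exact b)
  rwa [Nat.cast_succ, add_comm (n : ℤ_[2]), ← add_assoc] at this⟩

lemma T_iter (n : ℕ) (q : X) : (T^[n] q).1.1 = q.1.1 + n ∧ ∀ k, (T^[n] q).1.2 k = q.1.2 (n + k) := by
  induction n generalizing q with
  | zero => simp
  | succ n ih =>
    rw [Function.iterate_succ_apply]
    exact ⟨by rw [(ih _).1]; simp [T]; ring, fun k => by rw [(ih _).2]; simp [T, add_right_comm n k 1]⟩

lemma nb {q : X} {W : Set X} (hW : W ∈ 𝓝 q) : ∃ L : ℕ, ∃ O ∈ 𝓝 q.1.1, (∀ y ∈ O, ∀ i < L,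
    ‖q.1.1 + (i : ℕ)‖ ≤ ‖y + (i : ℕ)‖) ∧ ∀ y : X, y.1.1 ∈ O → (∀ k < L, y.1.2 k = q.1.2 k) → y ∈ W := by
  obtain ⟨V, hV, h⟩ := (mem_nhds_subtype _ _ _).1 hW
  obtain ⟨O, hO, P, hP, h'⟩ := mem_nhds_prod_iff.1 hV
  obtain ⟨L, hL⟩ := cyl0 hP
  have : ∀ᶠ y : ℤ_[2] in 𝓝 q.1.1, ∀ i ∈ Finset.range L, ‖q.1.1 + (i : ℕ)‖ ≤ ‖y + (i : ℕ)‖ := by
    refine (Finset.eventually_all _).2 fun i _ => ?_
    rcases (norm_nonneg (q.1.1 + (i : ℕ))).eq_or_lt with e | e
    · exact Eventually.of_forall fun y => e ▸ norm_nonneg _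
    · filter_upwards [Metric.ball_mem_nhds q.1.1 e] with y hy
      rw [mem_ball_iff_norm] at hy
      rw [show y + (i : ℕ) = q.1.1 + (i : ℕ) + (y - q.1.1) by ring,
        PadicInt.norm_add_eq_max_of_ne hy.ne']
      exact le_max_left _ _
  exact ⟨L, _, inter_mem hO this, fun y hy i hi => hy.2 i (Finset.mem_range.2 hi),
    fun y a b => h (h' ⟨a.1, hL _ b⟩)⟩

lemma pert (z : ℤ_[2]) {O : Set ℤ_[2]} (hO : O ∈ 𝓝 z) (L : ℕ) : ∃ y ∈ O, y ≠ z ∧ ∃ K : ℕ,
    ∀ i < L, (1 / 2 : ℝ) ^ K < ‖y + (i : ℕ)‖ := by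
  have h1 : Tendsto (fun m : ℕ => z + 2 ^ m) atTop (𝓝 z) := by
    simpa using (tendsto_pow_atTop_nhds_zero_of_norm_lt_one (x := (2 : ℤ_[2]))
      (by simpa using PadicInt.norm_lt_one_iff_dvd (p := 2) 2 |>.2 dvd_rfl)).const_add z
  have h2 : Function.Injective fun m : ℕ => z + 2 ^ m := fun a b h => by
    have : ((2 ^ a : ℕ) : ℤ_[2]) = (2 ^ b : ℕ) := by simpa using h
    exact Nat.pow_right_injective le_rfl (Nat.cast_injective this)
  have h3 := h2.tendsto_cofinite.eventually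
    ((Finset.range L).finite_toSet.image fun i : ℕ => -(i : ℤ_[2])).compl_mem_cofinite
  rw [Nat.cofinite_eq_atTop] at h3
  obtain ⟨m, a1, a2⟩ := ((h1.eventually hO).and h3).exists
  refine ⟨_, a1, by simp, ?_⟩
  obtain ⟨K, hK⟩ := ((Finset.range L).eventually_all.2 fun i hi =>
    (tendsto_pow_atTop_nhds_zero_of_lt_one (r := (1 / 2 : ℝ)) (by norm_num) (by norm_num)).eventually
      (gt_mem_nhds (norm_pos_iff.2 fun e : z + 2 ^ m + (i : ℕ) = 0 =>
        a2 ⟨i, hi, (eq_neg_of_add_eq_zero_left e).symm⟩))).exists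
  exact ⟨K, fun i hi => hK i (Finset.mem_range.2 hi)⟩

lemma half {a b : ℕ} (h : a ≤ b) : (1 / 2 : ℝ) ^ b ≤ (1 / 2) ^ a :=
  pow_le_pow_of_le_one (by norm_num) (by norm_num) h

lemma minimal {F : ℤ_[2] → Bool} (hF : Continuous F) :
    IsClosed {q : X | ∀ n, q.1.2 n = F (q.1.1 + n)} ∧
    ∀ N ⊆ {q : X | ∀ n, q.1.2 n = F (q.1.1 + n)}, N.Nonempty → IsClosed N → MapsTo T N N →
      N = {q : X | ∀ n, q.1.2 n = F (q.1.1 + n)} := by
  refine ⟨?_, fun N hN ⟨a, ha⟩ c m => hN.antisymm fun b hb => ?_⟩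
  · rw [ofPred_forall]
    exact isClosed_iInter fun n => isClosed_eq (by fun_prop) (by fun_prop)
  · obtain ⟨_, h1, h2⟩ := mem_closure_iff_seq_limit.1 (PadicInt.denseRange_natCast (b.1.1 - a.1.1))
    choose n hn using h1
    have h3 : Tendsto (fun i => a.1.1 + n i) atTop (𝓝 b.1.1) := by
      simpa [hn] using h2.const_add a.1.1
    refine c.mem_of_tendsto (f := fun i => T^[n i] a) (b := atTop) (tendsto_subtype_rng.2 ?_)
      (Eventually.of_forall fun i => m.iterate _ ha)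
    refine Tendsto.prodMk_nhds (by simpa only [(T_iter _ _).1] using h3) (tendsto_pi_nhds.2 fun k => ?_)
    rw [hb k]
    refine ((hF.tendsto _).comp (h3.add_const (k : ℤ_[2]))).congr fun i => ?_
    rw [(T_iter _ _).2, hN ha]
    simp [add_assoc]

theorem result : ∃ (X : Type) (_ : MetricSpace X) (_ : CompactSpace X) (_ : Nontrivial X)
    (T : X → X), (∀ x : X, ¬ IsOpen {x}) ∧ Continuous T ∧ Function.Surjective T ∧ Trans T ∧
      Dense {x | ∃ M, IsMin T M ∧ x ∈ M} ∧ ¬ IsMin T univ ∧ ¬ LYS T := by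
  classical
  have hX : IsClosed X := by
    simp only [X, ofPred_forall]
    refine isClosed_iInter fun n => isClosed_iInter fun j => isClosed_iInter fun _ => ?_
    simp only [imp_iff_not_or, ofPred_or]
    exact ((isClosed_discrete {a | ¬a = true}).preimage (f := fun q : ℤ_[2] × (ℕ → Bool) => q.2 n)
      (by fun_prop)).union (((isClosed_discrete {a | ¬a = true}).preimage
      (f := fun q : ℤ_[2] × (ℕ → Bool) => q.2 (n + j)) (by fun_prop)).union
      (isClosed_le continuous_const (by fun_prop)))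
  have := isCompact_iff_compactSpace.1 hX.isCompact
  let _ := TopologicalSpace.metrizableSpaceMetric (ℕ → Bool)
  let x0 : X := ⟨(0, fun _ => false), fun _ _ _ h => by simp at h⟩
  let x : X := ⟨(0, fun k => decide (k = 0)), fun _ _ _ _ h => by simp at h; omega⟩
  have cT : Continuous T := Continuous.subtype_mk (f := fun q : X => (q.1.1 + 1, fun k => q.1.2 (k + 1)))
    (by fun_prop) _
  have c0 : IsClopen {y : X | y.1.2 0 = true} := (isClopen_discrete {true}).preimage
    (f := fun y : X => y.1.2 0) (by fun_prop)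
  refine ⟨X, inferInstance, this, ⟨x0, x, fun h => ?_⟩, T, fun q h => ?_, cT, fun q => ?_,
    fun U V hU ⟨u, hu⟩ hV ⟨v, hv⟩ => ?_, fun q => mem_closure_iff_nhds.2 fun W hW => ?_, fun h => ?_,
    fun ⟨δ, δ0, h⟩ => ?_⟩
  · simpa [x, x0] using congrArg (fun q : X => q.1.2 0) h
  · obtain ⟨L, O, h1, h2, h3⟩ := nb (h.mem_nhds rfl)
    obtain ⟨y, a1, a2, -⟩ := pert _ h1 L
    exact a2 (congrArg (fun q : X => q.1.1) (h3 ⟨(y, fun k => decide (k < L) && q.1.2 k),
      fun n j hj b c => by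
        simp only [Bool.and_eq_true, decide_eq_true_eq] at b c
        exact (q.2 n j hj b.2 c.2).trans (h2 y a1 n b.1)⟩ a1 fun k hk => by simp [hk]))
  · refine ⟨⟨(q.1.1 - 1, fun k => Nat.casesOn k false q.1.2), fun n j hj a b => ?_⟩, by
      ext : 2 <;> simp [T]⟩
    rcases n with _ | n
    · simp at a
    · rw [add_right_comm] at b
      simpa [add_comm] using q.2 n j hj a b
  · obtain ⟨L, O, h1, h2, h3⟩ := nb (hU.mem_nhds hu)
    obtain ⟨M, P, g1, g2, g3⟩ := nb (hV.mem_nhds hv)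
    obtain ⟨y, a1, -, K, hK⟩ := pert _ h1 L
    obtain ⟨_, b, m, rfl⟩ := mem_closure_iff_nhds.1 (PadicInt.denseRange_natCast
      (v.1.1 - y - ((L + K : ℕ) : ℤ_[2]))) ((fun w : ℤ_[2] => y + (w + ((L + K : ℕ) : ℤ_[2]))) ⁻¹' P)
      ((by fun_prop : Continuous fun w : ℤ_[2] => y + (w + ((L + K : ℕ) : ℤ_[2]))).continuousAt
        (by simpa using g1))
    rw [mem_preimage, ← Nat.cast_add] at b
    generalize hn : m + (L + K) = n at b
    refine ⟨n, ⟨(y, fun k => if k < L then u.1.2 k else decide (n ≤ k ∧ k < n + M) && v.1.2 (k - n)),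
      fun i j hj c d => ?_⟩, h3 _ a1 fun k hk => if_pos hk, g3 _ (by rwa [(T_iter _ _).1]) fun k hk => ?_⟩
    · simp only at c d
      split_ifs at c d with e1 e2 e3
      · exact (u.2 i j hj c d).trans (h2 y a1 i e1)
      · simp only [Bool.and_eq_true, decide_eq_true_eq] at d
        exact (half (by omega)).trans (hK i e1).le
      · omega
      · simp only [Bool.and_eq_true, decide_eq_true_eq] at c d
        have := (v.2 _ j hj c.2 (by rw [show i - n + j = i + j - n by omega]; exact d.2)).trans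
          (g2 _ b _ (by omega))
        rwa [add_assoc, ← Nat.cast_add, Nat.add_sub_cancel' c.1.1] at this
    · rw [(T_iter _ _).2]
      simp only
      rw [if_neg (by omega)]
      simp [hk]
  · obtain ⟨L, O, h1, h2, h3⟩ := nb hW
    obtain ⟨y, a1, -, K0, hK0⟩ := pert _ h1 L
    obtain ⟨K, k1, hK⟩ : ∃ K, L + K ≤ 2 ^ K ∧ ∀ i < L, (1 / 2 : ℝ) ^ K < ‖y + (i : ℕ)‖ := by
      refine ⟨L + K0 + 1, ?_, fun i hi => (half (by omega)).trans_lt (hK0 i hi)⟩
      have : L + K0 < 2 ^ (L + K0) := Nat.lt_two_pow_self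
      rw [pow_succ]; omega
    let S : Set ℤ_[2] := ⋃ i ∈ (Finset.range L).filter (q.1.2 · = true),
      Metric.closedBall (y + i) ((1 / 2) ^ K)
    have hS : IsClopen S := isClopen_biUnion_finset fun i _ =>
      IsUltrametricDist.isClopen_closedBall _ (by positivity)
    have hF : Continuous S.boolIndicator := (continuous_boolIndicator_iff_isClopen S).2 hS
    have key : ∀ n : ℕ, S.boolIndicator (y + n) = true ↔ ∃ i < L, q.1.2 i = true ∧ n % 2 ^ K = i := by
      intro n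
      simp only [← mem_iff_boolIndicator, S, mem_iUnion, Finset.mem_filter, Finset.mem_range,
        mem_closedBall_iff_norm, add_sub_add_left_eq_sub, exists_prop, and_assoc]
      refine exists_congr fun i => and_congr_right fun hi => and_congr_right fun _ => ?_
      have := PadicInt.norm_int_le_pow_iff_dvd (p := 2) (k := n - i) (n := K)
      push_cast at this
      rw [one_div, inv_pow, ← zpow_natCast, ← zpow_neg, this, ← Nat.mod_eq_of_lt (a := i)
        (b := 2 ^ K) (by omega), Nat.mod_eq_of_lt (a := i) (b := 2 ^ K) (by omega)]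
      have := Nat.modEq_iff_dvd (n := 2 ^ K) (a := i) (b := n)
      push_cast at this
      rw [← this, Nat.ModEq, Nat.mod_eq_of_lt (a := i) (by omega), eq_comm]
    let p : X := ⟨(y, fun n => S.boolIndicator (y + n)), fun n j hj c d => by
      obtain ⟨i, c1, c2, c3⟩ := (key _).1 c
      obtain ⟨i', d1, d2, d3⟩ := (key _).1 d
      have e : ‖y + (i : ℕ)‖ ≤ ‖y + n‖ := by
        have b : ‖((2 ^ K * (n / 2 ^ K) : ℕ) : ℤ_[2])‖ ≤ (1 / 2) ^ K := by
          push_cast
          rw [norm_mul, norm_pow]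
          exact (mul_le_of_le_one_right (by positivity) (PadicInt.norm_le_one _)).trans_eq (by
            congr 1; simpa using PadicInt.norm_p (p := 2))
        conv_rhs => rw [← Nat.mod_add_div n (2 ^ K), c3, Nat.cast_add, ← add_assoc,
          PadicInt.norm_add_eq_max_of_ne (b.trans_lt (hK i c1)).ne']
        exact le_max_left _ _
      refine le_trans ?_ e
      rcases le_or_gt K j with f | f
      · exact (half f).trans (hK i c1).le
      · rw [← Nat.mod_add_mod, c3, Nat.mod_eq_of_lt (by omega)] at d3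
        exact (q.2 i j hj c2 (d3 ▸ d2)).trans (h2 y a1 i c1)⟩
    obtain ⟨m1, m2⟩ := minimal hF
    refine ⟨p, h3 p a1 fun k hk => Bool.eq_iff_iff.2 ((key k).trans ?_),
      {r : X | ∀ n, r.1.2 n = S.boolIndicator (r.1.1 + n)}, ⟨⟨p, fun _ => rfl⟩, m1,
      fun r hr n => ?_, m2⟩, fun _ => rfl⟩
    · rw [Nat.mod_eq_of_lt (by omega)]
      exact ⟨fun ⟨i, _, b, c⟩ => c ▸ b, fun b => ⟨k, hk, b, rfl⟩⟩
    · simpa [T, add_assoc, add_comm (1 : ℤ_[2])] using hr (n + 1)
  · have := h.2.2.2 {q | ∀ n, q.1.2 n = false} (subset_univ _) ⟨x0, fun _ => rfl⟩ (by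
      rw [ofPred_forall]
      exact isClosed_iInter fun n => isClosed_eq (by fun_prop) continuous_const) fun q hq n => hq _
    simpa [x] using (this ▸ mem_univ x : x ∈ {q : X | ∀ n, q.1.2 n = false}) 0
  · obtain ⟨y, h1, h2, h3⟩ := h x _ (c0.isOpen.mem_nhds rfl)
    have h4 : ‖y.1.1‖ ≤ 0 := h2 ▸ le_liminf_of_le (isCoboundedUnder_ge_of_le atTop
      (x := Metric.diam (univ : Set X)) fun n => Metric.dist_le_diam_of_mem
        isCompact_univ.isBounded trivial trivial) (Eventually.of_forall fun n => by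
      refine le_trans (le_of_eq ?_) (le_max_left _ _)
      rw [(T_iter _ _).1, (T_iter _ _).1, dist_eq_norm]
      simp [x])
    have h5 : y = x := by
      have z := norm_le_zero_iff.1 h4
      refine Subtype.ext (Prod.ext z (funext fun k => ?_))
      rcases k with _ | k
      · exact h1
      · by_contra e
        have := y.2 0 (k + 1) (by omega) h1 (by simpa [x] using e)
        rw [z] at this
        simp at this
        exact absurd this (not_le.2 (by positivity))
    simp [h5] at h3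
    linarith

end Pool.Agent.Results.MP_6bd6f6_an.NotLYS
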